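import Mathlib

/-! Module T (time sieve) of the droplet Strichartz project (MP_562430_an). -/

set_option autoImplicit false

open MeasureTheory Finset
open scoped InnerProductSpace

namespace Pool.Agent.Helper825.DR

variable {E : Type} [NormedAddCommGroup E] [InnerProductSpace ℂ E]

/-- the exponential sum -/
noncomputable def SS {ι : Type} (s : Finset ι) (w : ι → ℝ) (v : ι → E) (t : ℝ) : E :=
  ∑ j ∈ s, Complex.exp (Complex.I * t * w j) • v j

theorem norm_SS_le {ι : Type} (s : Finset ι) (w : ι → ℝ) (v : ι → E) (t : ℝ) :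
    ‖SS s w v t‖ ≤ ∑ j ∈ s, ‖v j‖ := by
  refine (norm_sum_le _ _).trans (Finset.sum_le_sum fun j _ => ?_)
  rw [norm_smul]
  have : ‖Complex.exp (Complex.I * t * w j)‖ = 1 := by
    rw [Complex.norm_exp]
    simp
  rw [this, one_mul]

theorem continuous_SS {ι : Type} (s : Finset ι) (w : ι → ℝ) (v : ι → E) :
    Continuous (SS s w v) := by
  unfold SS
  refine continuous_finsetSum _ fun j _ => ?_
  exact Continuous.smul (by fun_prop) continuous_const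

theorem exp_pt {ι : Type} (s : Finset ι) (w : ι → ℝ) (v : ι → E) (t : ℝ) :
    ((Real.exp (-t ^ 2) * ‖SS s w v t‖ ^ 2 : ℝ) : ℂ) =
      ∑ j ∈ s, ∑ l ∈ s, ⟪v j, v l⟫_ℂ *
        Complex.exp ((-1 : ℂ) * (t : ℂ) ^ 2 + (Complex.I * ((w l - w j : ℝ) : ℂ)) * t + 0) := by
  have h1 : ((‖SS s w v t‖ ^ 2 : ℝ) : ℂ) = ⟪SS s w v t, SS s w v t⟫_ℂ := by
    rw [inner_self_eq_norm_sq_to_K]; norm_cast
  rw [Complex.ofReal_mul, h1]
  unfold SS
  rw [sum_inner, Finset.mul_sum]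
  refine Finset.sum_congr rfl fun j _ => ?_
  rw [inner_sum, Finset.mul_sum]
  refine Finset.sum_congr rfl fun l _ => ?_
  rw [inner_smul_left, inner_smul_right, ← Complex.exp_conj]
  have e1 : ((Real.exp (-t ^ 2) : ℝ) : ℂ) = Complex.exp (-(t : ℂ) ^ 2) := by
    rw [Complex.ofReal_exp]; push_cast; rfl
  rw [e1]
  have e2 : Complex.exp ((-1 : ℂ) * (t : ℂ) ^ 2 + (Complex.I * ((w l - w j : ℝ) : ℂ)) * t + 0) =
      Complex.exp (-(t : ℂ) ^ 2) * (Complex.exp ((starRingEnd ℂ) (Complex.I * t * w j)) *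
        Complex.exp (Complex.I * t * w l)) := by
    rw [← Complex.exp_add, ← Complex.exp_add]
    congr 1
    simp only [map_mul, Complex.conj_I, Complex.conj_ofReal]
    push_cast
    ring
  rw [e2]
  ring

theorem exp_int {ι : Type} (s : Finset ι) (w : ι → ℝ) (v : ι → E) :
    ∫ t : ℝ, Real.exp (-t ^ 2) * ‖SS s w v t‖ ^ 2 ≤
      Real.sqrt Real.pi * ∑ j ∈ s, ∑ l ∈ s, ‖v j‖ * ‖v l‖ * Real.exp (-(w l - w j) ^ 2 / 4) := by
  have h1 : ((∫ t : ℝ, Real.exp (-t ^ 2) * ‖SS s w v t‖ ^ 2 : ℝ) : ℂ) =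
      ∑ j ∈ s, ∑ l ∈ s, ⟪v j, v l⟫_ℂ * ((Real.pi : ℂ) ^ (1 / 2 : ℂ) *
        Complex.exp (-((w l - w j : ℝ) : ℂ) ^ 2 / 4)) := by
    rw [← integral_complex_ofReal]
    simp_rw [exp_pt s w v]
    have hint : ∀ j l : ι, Integrable (fun t : ℝ => ⟪v j, v l⟫_ℂ *
        Complex.exp ((-1 : ℂ) * (t : ℂ) ^ 2 + (Complex.I * ((w l - w j : ℝ) : ℂ)) * t + 0)) := by
      intro j l
      exact (integrable_cexp_quadratic' (by simp) _ _).const_mul _
    rw [integral_finsetSum _ fun j _ => integrable_finsetSum _ fun l _ => hint j l]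
    refine Finset.sum_congr rfl fun j _ => ?_
    rw [integral_finsetSum _ fun l _ => hint j l]
    refine Finset.sum_congr rfl fun l _ => ?_
    rw [integral_const_mul, integral_cexp_quadratic (by simp)]
    congr 2
    · norm_num
    · congr 1
      rw [mul_pow, Complex.I_sq]
      ring
  have h2 : (∫ t : ℝ, Real.exp (-t ^ 2) * ‖SS s w v t‖ ^ 2) ≤
      ‖((∫ t : ℝ, Real.exp (-t ^ 2) * ‖SS s w v t‖ ^ 2 : ℝ) : ℂ)‖ := by
    rw [Complex.norm_real]; exact le_abs_self _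
  refine h2.trans ?_
  rw [h1, Finset.mul_sum]
  refine (norm_sum_le _ _).trans (Finset.sum_le_sum fun j _ => ?_)
  rw [Finset.mul_sum]
  refine (norm_sum_le _ _).trans (Finset.sum_le_sum fun l _ => ?_)
  rw [norm_mul, norm_mul]
  have e1 : ‖(Real.pi : ℂ) ^ (1 / 2 : ℂ)‖ = Real.sqrt Real.pi := by
    rw [Real.sqrt_eq_rpow]
    have : ((Real.pi : ℂ) ^ (1 / 2 : ℂ)) = ((Real.pi ^ (1 / 2 : ℝ) : ℝ) : ℂ) := by
      rw [Complex.ofReal_cpow Real.pi_pos.le]; push_cast; rfl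
    rw [this, Complex.norm_real, Real.norm_eq_abs, abs_of_nonneg (by positivity)]
  have e2 : ‖Complex.exp (-((w l - w j : ℝ) : ℂ) ^ 2 / 4)‖ = Real.exp (-(w l - w j) ^ 2 / 4) := by
    have : (-((w l - w j : ℝ) : ℂ) ^ 2 / 4) = ((-(w l - w j) ^ 2 / 4 : ℝ) : ℂ) := by push_cast; rfl
    rw [this, ← Complex.ofReal_exp, Complex.norm_real, Real.norm_eq_abs, abs_of_pos (Real.exp_pos _)]
  rw [e1, e2]
  have e3 := norm_inner_le_norm (𝕜 := ℂ) (v j) (v l)
  calc ‖⟪v j, v l⟫_ℂ‖ * (Real.sqrt Real.pi * Real.exp (-(w l - w j) ^ 2 / 4))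
      ≤ (‖v j‖ * ‖v l‖) * (Real.sqrt Real.pi * Real.exp (-(w l - w j) ^ 2 / 4)) := by gcongr
    _ = _ := by ring

theorem summable_exp_abs : Summable (fun m : ℤ => Real.exp (-|(m : ℝ)|)) := by
  have h1 : Summable (fun n : ℕ => Real.exp (-(n : ℝ))) := Real.summable_exp_neg_nat
  refine Summable.of_nat_of_neg ?_ ?_
  · refine h1.congr fun n => ?_
    simp
  · refine h1.congr fun n => ?_
    simp

/-- the constant of the Schur test -/
noncomputable def AA : ℝ := ∑' m : ℤ, Real.exp (-|(m : ℝ)|)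

theorem AA_pos : 0 < AA :=
  summable_exp_abs.tsum_pos (fun _ => (Real.exp_pos _).le) 0 (Real.exp_pos _)

theorem schur_sum (B : Finset ℤ) (b : ℤ) :
    ∑ b' ∈ B, Real.exp (-|(b : ℝ) - b'|) ≤ AA := by
  have h1 : ∑ b' ∈ B, Real.exp (-|(b : ℝ) - b'|) =
      ∑ m ∈ B.map (Equiv.subLeft b).toEmbedding, Real.exp (-|(m : ℝ)|) := by
    rw [Finset.sum_map]
    refine Finset.sum_congr rfl fun b' _ => ?_
    simp
  rw [h1]
  exact summable_exp_abs.sum_le_tsum _ (fun _ _ => (Real.exp_pos _).le)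

theorem schur_test (B : Finset ℤ) (V : ℤ → ℝ) :
    ∑ b ∈ B, ∑ b' ∈ B, V b * V b' * Real.exp (-|(b : ℝ) - b'|) ≤ AA * ∑ b ∈ B, V b ^ 2 := by
  have h1 : ∀ b b' : ℤ, V b * V b' * Real.exp (-|(b : ℝ) - b'|) ≤
      V b ^ 2 / 2 * Real.exp (-|(b : ℝ) - b'|) + V b' ^ 2 / 2 * Real.exp (-|(b : ℝ) - b'|) := by
    intro b b'
    rw [← add_mul]
    refine mul_le_mul_of_nonneg_right ?_ (Real.exp_pos _).le
    nlinarith [sq_nonneg (V b - V b')]
  refine (Finset.sum_le_sum fun b _ => Finset.sum_le_sum fun b' _ => h1 b b').trans ?_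
  simp_rw [Finset.sum_add_distrib]
  have h2 : ∑ b ∈ B, ∑ b' ∈ B, V b ^ 2 / 2 * Real.exp (-|(b : ℝ) - b'|) ≤
      AA * ∑ b ∈ B, V b ^ 2 / 2 := by
    rw [Finset.mul_sum]
    refine Finset.sum_le_sum fun b _ => ?_
    rw [← Finset.mul_sum, mul_comm]
    exact mul_le_mul_of_nonneg_right (schur_sum B b) (by positivity)
  have h3 : ∑ b ∈ B, ∑ b' ∈ B, V b' ^ 2 / 2 * Real.exp (-|(b : ℝ) - b'|) ≤
      AA * ∑ b ∈ B, V b ^ 2 / 2 := by
    rw [Finset.sum_comm]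
    refine le_trans (le_of_eq ?_) h2
    refine Finset.sum_congr rfl fun b _ => Finset.sum_congr rfl fun b' _ => ?_
    rw [abs_sub_comm]
  have h4 : AA * ∑ b ∈ B, V b ^ 2 = AA * ∑ b ∈ B, V b ^ 2 / 2 + AA * ∑ b ∈ B, V b ^ 2 / 2 := by
    rw [← mul_add, ← Finset.sum_add_distrib]
    congr 1
    refine Finset.sum_congr rfl fun b _ => by ring
  rw [h4]
  exact add_le_add h2 h3

theorem gauss_floor (x y : ℝ) :
    Real.exp (-(y - x) ^ 2 / 4) ≤ Real.exp 2 * Real.exp (-|((⌊x⌋ : ℤ) : ℝ) - ((⌊y⌋ : ℤ) : ℝ)|) := by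
  rw [← Real.exp_add]
  apply Real.exp_le_exp.2
  have h1 : |((⌊x⌋ : ℤ) : ℝ) - ((⌊y⌋ : ℤ) : ℝ)| ≤ |y - x| + 1 := by
    have a1 := Int.floor_le x
    have a2 := Int.lt_floor_add_one x
    have a3 := Int.floor_le y
    have a4 := Int.lt_floor_add_one y
    rw [abs_le]
    constructor
    · have := le_abs_self (y - x); linarith
    · have := neg_abs_le (y - x); linarith
  have h2 : |y - x| - 1 ≤ (y - x) ^ 2 / 4 := by
    have := sq_abs (y - x)
    nlinarith [sq_nonneg (|y - x| / 2 - 1)]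
  linarith

theorem double_sum {ι : Type} (s : Finset ι) (w : ι → ℝ) (v : ι → E) :
    ∑ j ∈ s, ∑ l ∈ s, ‖v j‖ * ‖v l‖ * Real.exp (-(w l - w j) ^ 2 / 4) ≤
      Real.exp 2 * AA * ∑ b ∈ s.image (fun j => ⌊w j⌋),
        (∑ j ∈ s.filter (fun j => ⌊w j⌋ = b), ‖v j‖) ^ 2 := by
  classical
  set B := s.image (fun j => ⌊w j⌋) with hB
  set V : ℤ → ℝ := fun b => ∑ j ∈ s.filter (fun j => ⌊w j⌋ = b), ‖v j‖ with hV
  have hmem : ∀ j ∈ s, ⌊w j⌋ ∈ B := fun j hj => Finset.mem_image_of_mem _ hj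
  have h1 : ∑ j ∈ s, ∑ l ∈ s, ‖v j‖ * ‖v l‖ * Real.exp (-(w l - w j) ^ 2 / 4) ≤
      Real.exp 2 * ∑ j ∈ s, ∑ l ∈ s, ‖v j‖ * ‖v l‖ *
        Real.exp (-|((⌊w j⌋ : ℤ) : ℝ) - ((⌊w l⌋ : ℤ) : ℝ)|) := by
    rw [Finset.mul_sum]
    refine Finset.sum_le_sum fun j _ => ?_
    rw [Finset.mul_sum]
    refine Finset.sum_le_sum fun l _ => ?_
    have := mul_le_mul_of_nonneg_left (gauss_floor (w j) (w l))
      (mul_nonneg (norm_nonneg (v j)) (norm_nonneg (v l)))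
    calc _ ≤ _ := this
      _ = _ := by ring
  have h2 : ∑ j ∈ s, ∑ l ∈ s, ‖v j‖ * ‖v l‖ *
        Real.exp (-|((⌊w j⌋ : ℤ) : ℝ) - ((⌊w l⌋ : ℤ) : ℝ)|) =
      ∑ b ∈ B, ∑ b' ∈ B, V b * V b' * Real.exp (-|(b : ℝ) - b'|) := by
    rw [← Finset.sum_fiberwise_of_maps_to hmem]
    refine Finset.sum_congr rfl fun b _ => ?_
    have e1 : ∀ j ∈ s.filter (fun j => ⌊w j⌋ = b), ∑ l ∈ s, ‖v j‖ * ‖v l‖ *
        Real.exp (-|((⌊w j⌋ : ℤ) : ℝ) - ((⌊w l⌋ : ℤ) : ℝ)|) =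
        ∑ b' ∈ B, ‖v j‖ * V b' * Real.exp (-|(b : ℝ) - b'|) := by
      intro j hj
      have hjb : ⌊w j⌋ = b := (Finset.mem_filter.1 hj).2
      rw [← Finset.sum_fiberwise_of_maps_to hmem]
      refine Finset.sum_congr rfl fun b' _ => ?_
      simp only [hV]
      rw [Finset.mul_sum, Finset.sum_mul]
      refine Finset.sum_congr rfl fun l hl => ?_
      rw [hjb, (Finset.mem_filter.1 hl).2]
    rw [Finset.sum_congr rfl e1, Finset.sum_comm]
    refine Finset.sum_congr rfl fun b' _ => ?_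
    simp only [hV]
    rw [Finset.sum_mul, Finset.sum_mul]
  rw [h2] at h1
  refine h1.trans ?_
  rw [mul_assoc]
  exact mul_le_mul_of_nonneg_left (schur_test B V) (Real.exp_pos _).le

/-- MODULE T: the time sieve -/
theorem time_sieve (T : ℝ) (hT : 0 ≤ T) : ∃ C : ℝ, 0 < C ∧ ∀ (E : Type) [NormedAddCommGroup E]
    [InnerProductSpace ℂ E] (ι : Type) (s : Finset ι)
    (w : ι → ℝ) (v : ι → E), ∫ t in (0:ℝ)..T,
      ‖∑ j ∈ s, Complex.exp (Complex.I * t * w j) • v j‖ ^ 2 ≤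
      C * ∑ b ∈ s.image (fun j => ⌊w j⌋), (∑ j ∈ s.filter (fun j => ⌊w j⌋ = b), ‖v j‖) ^ 2 := by
  refine ⟨Real.exp (T ^ 2) * Real.sqrt Real.pi * (Real.exp 2 * AA), ?_, ?_⟩
  · have := AA_pos
    have := Real.pi_pos
    positivity
  intro E _ _ ι s w v
  have hint : Integrable (fun t : ℝ => Real.exp (-t ^ 2) * ‖SS s w v t‖ ^ 2) := by
    have h1 : Integrable (fun t : ℝ => Real.exp (-t ^ 2) * (∑ j ∈ s, ‖v j‖) ^ 2) := by
      have := (integrable_exp_neg_mul_sq (b := 1) one_pos).mul_const ((∑ j ∈ s, ‖v j‖) ^ 2)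
      simpa using this
    refine h1.mono' ?_ ?_
    · refine Continuous.aestronglyMeasurable ?_
      have := continuous_SS s w v
      fun_prop
    · refine Filter.Eventually.of_forall fun t => ?_
      rw [Real.norm_eq_abs, abs_of_nonneg (by positivity)]
      refine mul_le_mul_of_nonneg_left ?_ (Real.exp_pos _).le
      exact pow_le_pow_left₀ (norm_nonneg _) (norm_SS_le s w v t) 2
  have h1 : ∫ t in (0:ℝ)..T, ‖SS s w v t‖ ^ 2 ≤
      Real.exp (T ^ 2) * ∫ t : ℝ, Real.exp (-t ^ 2) * ‖SS s w v t‖ ^ 2 := by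
    rw [intervalIntegral.integral_of_le hT]
    calc ∫ t in Set.Ioc 0 T, ‖SS s w v t‖ ^ 2
        ≤ ∫ t in Set.Ioc 0 T, Real.exp (T ^ 2) * (Real.exp (-t ^ 2) * ‖SS s w v t‖ ^ 2) := by
          refine setIntegral_mono_on ?_ (hint.const_mul _).integrableOn measurableSet_Ioc ?_
          · refine Continuous.integrableOn_Ioc ?_
            have := continuous_SS s w v
            fun_prop
          · intro t ht
            rw [← mul_assoc, ← Real.exp_add]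
            have h2 : 1 ≤ Real.exp (T ^ 2 + -t ^ 2) := by
              apply Real.one_le_exp
              have : t ^ 2 ≤ T ^ 2 := pow_le_pow_left₀ ht.1.le ht.2 2
              linarith
            have h3 : 0 ≤ ‖SS s w v t‖ ^ 2 := by positivity
            nlinarith
      _ = Real.exp (T ^ 2) * ∫ t in Set.Ioc 0 T, Real.exp (-t ^ 2) * ‖SS s w v t‖ ^ 2 := by
          rw [integral_const_mul]
      _ ≤ _ := by
          refine mul_le_mul_of_nonneg_left ?_ (Real.exp_pos _).le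
          exact setIntegral_le_integral hint (Filter.Eventually.of_forall fun t => by positivity)
  have h2 := exp_int s w v
  have h3 := double_sum s w v
  show ∫ t in (0:ℝ)..T, ‖SS s w v t‖ ^ 2 ≤ _
  calc ∫ t in (0:ℝ)..T, ‖SS s w v t‖ ^ 2
      ≤ Real.exp (T ^ 2) * (Real.sqrt Real.pi * (Real.exp 2 * AA *
        ∑ b ∈ s.image (fun j => ⌊w j⌋), (∑ j ∈ s.filter (fun j => ⌊w j⌋ = b), ‖v j‖) ^ 2)) := by
        refine h1.trans (mul_le_mul_of_nonneg_left (h2.trans ?_) (Real.exp_pos _).le)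
        exact mul_le_mul_of_nonneg_left h3 (Real.sqrt_nonneg _)
    _ = _ := by ring

end Pool.Agent.Helper825.DR
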